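import Pool.Agent.Y301.QT.Ref

set_option autoImplicit false

namespace Pool.Agent.Results.MP_1cd45c_al.RankRefinement

open Finset Matrix LaurentPolynomial Pool.Agent.H920R2.Km Pool.Agent.Y301.QT

/-- The indeterminate `q`, as a unit of the ring of Laurent polynomials over the integers. -/
noncomputable def qT : (ℤ[T;T⁻¹])ˣ where
  val := T 1
  inv := T (-1)
  val_inv := by rw [← T_add]; simp
  inv_val := by rw [← T_add]; simp

open Classical in
/-- The identity `A_n(q) = B_n(q)` together with its refinement by rank and with counting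
interpretations of all the entries of the triangle.
(1) `A_n(q) = b_{n-1,0}(q)` for all `n ≥ 1`, as Laurent polynomials.
(2) In every commutative ring, for every unit `q` and every `x`: the rank generating function
`∑ r, A_n^r(q) x^r` is the entry `s_{n-1,0}` of the pair of coupled triangles `s`, `c`
(`rtri q x true`, `rtri q x false`), and at `x = 1` both triangles are the triangle `b`.
(3) Over a field with `q` elements, `A_n^r` counts the matrices of rank `r`,
`s_{k,l}` is `q^l` times the sum of `x^rank X` over all strictly upper triangular square-zero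
matrices `X` of size `l + 1 + k` whose row of index `k` (counted from `0`) vanishes,
`c_{k,l}` is `q^l` times the sum of `x^rank X` over all pairs of a strictly upper triangular
square-zero matrix `X` of size `k + l` and a vector of the left kernel of the lower right
`k × k` corner of `X`.
(4) In particular `b_{k,l}(q)` is `q^l` times the number of strictly upper triangular square-zero
matrices of size `l + 1 + k` whose row of index `k` vanishes, and also `q^l` times the number of
the pairs above. -/
theorem result.{v, w} :
    (∀ n : ℕ, ∑ r ∈ range (n + 2), rk qT (n + 1) r = tri qT n 0) ∧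
    (∀ (R : Type w) [CommRing R] (q : Rˣ) (x : R),
      (∀ n : ℕ, ∑ r ∈ range (n + 2), rk q (n + 1) r * x ^ r = rtri q x true n 0) ∧
      (∀ (c : Bool) (k l : ℕ), rtri q 1 c k l = tri q k l)) ∧
    (∀ (F : Type v) [Field F] [Fintype F] (R : Type w) [CommRing R] (q : Rˣ) (x : R),
      (q : R) = (Fintype.card F : R) →
      (∀ n : ℕ, ∑ X ∈ univ.filter (fun X : Matrix (Fin n) (Fin n) F =>
          (∀ i j, j ≤ i → X i j = 0) ∧ X * X = 0), x ^ X.rank =
        ∑ r ∈ range (n + 1), rk q n r * x ^ r) ∧
      (∀ k l : ℕ, rtri q x true k l = (q : R) ^ l *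
        ∑ X ∈ univ.filter (fun X : Matrix (Fin (l + 1 + k)) (Fin (l + 1 + k)) F =>
          ((∀ i j, j ≤ i → X i j = 0) ∧ X * X = 0) ∧
            ∀ i j : Fin (l + 1 + k), (i : ℕ) = k → X i j = 0),
          x ^ X.rank) ∧
      (∀ k l : ℕ, rtri q x false k l = (q : R) ^ l *
        ∑ p ∈ univ.filter (fun p : Matrix (Fin (k + l)) (Fin (k + l)) F × (Fin k → F) =>
          ((∀ i j, j ≤ i → p.1 i j = 0) ∧ p.1 * p.1 = 0) ∧
            p.2 ᵥ* (p.1.submatrix (fun i : Fin k => (⟨i + l, by omega⟩ : Fin (k + l)))
              (fun j : Fin k => (⟨j + l, by omega⟩ : Fin (k + l)))) = 0),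
          x ^ p.1.rank) ∧
      (∀ k l : ℕ, tri q k l = (q : R) ^ l *
        ((Nat.card {X : Matrix (Fin (l + 1 + k)) (Fin (l + 1 + k)) F //
          ((∀ i j, j ≤ i → X i j = 0) ∧ X * X = 0) ∧
            ∀ i j : Fin (l + 1 + k), (i : ℕ) = k → X i j = 0} : ℕ) : R)) ∧
      (∀ k l : ℕ, tri q k l = (q : R) ^ l *
        ((Nat.card {p : Matrix (Fin (k + l)) (Fin (k + l)) F × (Fin k → F) //
          ((∀ i j, j ≤ i → p.1 i j = 0) ∧ p.1 * p.1 = 0) ∧
            p.2 ᵥ* (p.1.submatrix (fun i : Fin k => (⟨i + l, by omega⟩ : Fin (k + l)))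
              (fun j : Fin k => (⟨j + l, by omega⟩ : Fin (k + l)))) = 0} : ℕ) : R))) := by
  classical
  refine ⟨fun n => main qT n, fun R _ q x => ⟨rtri_main q x, fun c k l =>
    rtri_one q (k + l) k l rfl c⟩, fun F _ _ R _ q x hq => ⟨fun n => ?_, fun k l => ?_,
    fun k l => ?_, fun k l => ?_, fun k l => ?_⟩⟩
  · have h := sum_good (F := F) q hq n (fun ρ => x ^ ρ)
    simp only [dm_rank] at h
    convert h using 2
    ext X
    simp only [mem_filter, mem_univ, true_and, Good]
  · have h := count_rows (F := F) q x hq k l
    convert h using 3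
    ext X
    simp only [mem_filter, mem_univ, true_and, Good, Rz]
  · have h := count_pairs (F := F) q x hq k l
    convert h using 3
    ext p
    simp only [mem_filter, mem_univ, true_and, Good]
    rfl
  · rw [← rtri_one q (k + l) k l rfl true, count_rows (F := F) q 1 hq k l]
    simp only [one_pow, sum_const, nsmul_eq_mul, mul_one]
    congr 2
    rw [Nat.card_eq_fintype_card, Fintype.card_subtype]
    congr
  · rw [← rtri_one q (k + l) k l rfl false, count_pairs (F := F) q 1 hq k l]
    simp only [one_pow, sum_const, nsmul_eq_mul, mul_one]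
    congr 2
    rw [Nat.card_eq_fintype_card, Fintype.card_subtype]
    congr

end Pool.Agent.Results.MP_1cd45c_al.RankRefinement
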